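import Pool.Agent.Lib_MP_9828eb_ins.Noether

/-!
# The ideal of the cone over a plane complete intersection of points
-/

set_option autoImplicit false

open MvPolynomial
open scoped LinearAlgebra.Projectivization

namespace Pool.Agent.GeprociIns

open Pool.Agent.Geproci

/-- the last three coordinates -/
def tl (v : Fin 4 → ℂ) : Fin 3 → ℂ := fun i => v i.succ

lemma tl_add (v w : Fin 4 → ℂ) : tl (v + w) = tl v + tl w := rfl

lemma tl_smul (c : ℂ) (v : Fin 4 → ℂ) : tl (c • v) = c • tl v := rfl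

lemma cons_tl (v : Fin 4 → ℂ) : (Fin.cons (v 0) (tl v) : Fin 4 → ℂ) = v := by
  funext i
  refine Fin.cases ?_ (fun j => ?_) i
  · rfl
  · rfl

lemma eval_rn (F : MvPolynomial (Fin 3) ℂ) (v : Fin 4 → ℂ) :
    eval v (rename Fin.succ F) = eval (tl v) F := by
  rw [eval_rename]
  rfl

lemma exists_equiv (p : Fin 4 → ℂ) (hp : p ≠ 0) :
    ∃ E : (Fin 4 → ℂ) ≃ₗ[ℂ] (Fin 4 → ℂ), E (Pi.single 0 1) = p := by
  have h0 : (Pi.single 0 1 : Fin 4 → ℂ) ≠ 0 := by
    intro h
    have := congrFun h 0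
    simp at this
  obtain ⟨A, hA⟩ := SeparatingDual.exists_continuousLinearEquiv_apply_eq (R := ℂ) h0 hp
  exact ⟨A.toLinearEquiv, hA⟩

/-- the coefficients with respect to the first variable -/
noncomputable def cf (f : MvPolynomial (Fin 4) ℂ) (k : ℕ) : MvPolynomial (Fin 3) ℂ :=
  (finSuccEquiv ℂ 3 f).coeff k

lemma cf_sum (f : MvPolynomial (Fin 4) ℂ) :
    f = ∑ k ∈ Finset.range ((finSuccEquiv ℂ 3 f).natDegree + 1), X 0 ^ k * rename Fin.succ (cf f k) := by
  apply MvPolynomial.funext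
  intro v
  have h1 := eval_eq_eval_mv_eval' (tl v) (v 0) f
  rw [cons_tl] at h1
  rw [h1, map_sum, Polynomial.eval_map, Polynomial.eval₂_eq_sum_range]
  refine Finset.sum_congr rfl fun k _ => ?_
  rw [map_mul, map_pow, eval_X, eval_rn, cf, mul_comm]

lemma cf_zero {f : MvPolynomial (Fin 4) ℂ} {w : Fin 3 → ℂ}
    (h : ∀ y : ℂ, eval (Fin.cons y w : Fin 4 → ℂ) f = 0) (k : ℕ) : eval w (cf f k) = 0 := by
  have h1 : Polynomial.map (eval w) (finSuccEquiv ℂ 3 f) = 0 := by
    apply Polynomial.funext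
    intro y
    rw [← eval_eq_eval_mv_eval' w y f, h y, Polynomial.eval_zero]
  have h2 := congrArg (fun P => Polynomial.coeff P k) h1
  simpa [cf, Polynomial.coeff_map] using h2

lemma lsub_symm (E : (Fin 4 → ℂ) ≃ₗ[ℂ] (Fin 4 → ℂ)) (f : MvPolynomial (Fin 4) ℂ) :
    lsub E.symm.toLinearMap (lsub E.toLinearMap f) = f := by
  apply MvPolynomial.funext
  intro v
  rw [eval_lsub, eval_lsub]
  simp

/-- The ideal of the cone with vertex `p` over a complete intersection of `a b` points. -/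
theorem cone_ideal {a b : ℕ} (ha : 1 ≤ a) (hb : 1 ≤ b) {F G : MvPolynomial (Fin 3) ℂ}
    (hF : F.IsHomogeneous a) (hG : G.IsHomogeneous b) (hrel : IsRelPrime F G)
    (W : Finset (Fin 3 → ℂ)) (h0 : ∀ w ∈ W, w ≠ 0)
    (hprop : ∀ w ∈ W, ∀ w' ∈ W, ∀ c : ℂ, w = c • w' → w = w')
    (hcard : a * b ≤ W.card) (hWF : ∀ w ∈ W, eval w F = 0) (hWG : ∀ w ∈ W, eval w G = 0)
    (Z : Finset (ℙ ℂ (Fin 4 → ℂ))) (p : Fin 4 → ℂ)
    (E : (Fin 4 → ℂ) ≃ₗ[ℂ] (Fin 4 → ℂ)) (hE : E (Pi.single 0 1) = p)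
    (hWZ : ∀ w ∈ W, ∃ z ∈ Z, ∃ c : ℂ, w = c • tl (E.symm z.rep))
    (hZF : ∀ z ∈ Z, eval (tl (E.symm z.rep)) F = 0) (hZG : ∀ z ∈ Z, eval (tl (E.symm z.rep)) G = 0)
    (f : MvPolynomial (Fin 4) ℂ) :
    f ∈ Ideal.span {lsub E.symm.toLinearMap (rename Fin.succ F),
        lsub E.symm.toLinearMap (rename Fin.succ G)} ↔
      ∀ z ∈ Z, ∀ s t : ℂ, eval (s • p + t • z.rep) f = 0 := by
  have hEp : E.symm p = Pi.single 0 1 := by rw [← hE, LinearEquiv.symm_apply_apply]
  have htl : tl (Pi.single 0 1) = 0 := by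
    funext i
    simp [tl, Fin.succ_ne_zero]
  constructor
  · intro hf z hz s t
    obtain ⟨A, B, rfl⟩ := Ideal.mem_span_pair.1 hf
    have key : ∀ {P : MvPolynomial (Fin 3) ℂ} {n : ℕ}, P.IsHomogeneous n →
        eval (tl (E.symm z.rep)) P = 0 →
        eval (s • p + t • z.rep) (lsub E.symm.toLinearMap (rename Fin.succ P)) = 0 := by
      intro P n hP h1
      rw [eval_lsub, eval_rn]
      simp only [LinearEquiv.coe_coe]
      rw [map_add, map_smul, map_smul, hEp, tl_add, tl_smul, tl_smul, htl, smul_zero, zero_add,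
        eval_smul_homog hP, h1, mul_zero]
    rw [map_add, map_mul, map_mul, key hF (hZF z hz), key hG (hZG z hz), mul_zero, mul_zero, add_zero]
  · intro hf
    have h1 : ∀ k, cf (lsub E.toLinearMap f) k ∈ Ideal.span {F, G} := by
      intro k
      refine noether_ideal ha hb hF hG hrel W h0 hprop hcard hWF hWG fun w hw t => ?_
      apply cf_zero
      intro y
      obtain ⟨z, hz, c, hc⟩ := hWZ w hw
      rw [eval_lsub]
      have h2 : (Fin.cons y (t • w) : Fin 4 → ℂ) =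
          (y - t * c * E.symm z.rep 0) • Pi.single 0 1 + (t * c) • E.symm z.rep := by
        funext i
        refine Fin.cases ?_ (fun j => ?_) i
        · simp
        · rw [Fin.cons_succ, hc]
          simp [tl, Fin.succ_ne_zero, mul_assoc]
      rw [h2]
      simp only [LinearEquiv.coe_coe]
      rw [map_add, map_smul, map_smul, hE, LinearEquiv.apply_symm_apply]
      exact hf z hz _ _
    have h3 : lsub E.toLinearMap f ∈ Ideal.span {rename Fin.succ F, rename Fin.succ G} := by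
      rw [cf_sum (lsub E.toLinearMap f)]
      refine Ideal.sum_mem _ fun k _ => Ideal.mul_mem_left _ _ ?_
      obtain ⟨A, B, hAB⟩ := Ideal.mem_span_pair.1 (h1 k)
      rw [← hAB]
      exact Ideal.mem_span_pair.2 ⟨rename Fin.succ A, rename Fin.succ B, by
        rw [map_add, map_mul, map_mul]⟩
    obtain ⟨A, B, hAB⟩ := Ideal.mem_span_pair.1 h3
    refine Ideal.mem_span_pair.2 ⟨lsub E.symm.toLinearMap A, lsub E.symm.toLinearMap B, ?_⟩
    rw [← map_mul, ← map_mul, ← map_add, hAB, lsub_symm]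

end Pool.Agent.GeprociIns
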