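import Pool.Agent.Lib_MP_9828eb_ag.Final

/-!
# The theorem AF + BG for a complete intersection of distinct points of the projective plane
-/

set_option autoImplicit false

open MvPolynomial

namespace Pool.Agent.GeprociIns

open Pool.Agent.Geproci

variable {α β : ℂ}

/-- the linear form `x_0 + α x_1 + β x_2` -/
noncomputable def ell (α β : ℂ) : MvPolynomial (Fin 3) ℂ := X 0 + C α * X 1 + C β * X 2

/-- the value of the linear form `x_0 + α x_1 + β x_2` -/
def el (α β : ℂ) (x : Fin 3 → ℂ) : ℂ := x 0 + α * x 1 + β * x 2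

lemma eval_ell (x : Fin 3 → ℂ) : eval x (ell α β) = el α β x := by simp [ell, el]

lemma ell_ne_zero : ell α β ≠ 0 := by
  intro h
  have h1 := congrArg (eval ![1, 0, 0]) h
  rw [eval_ell, map_zero] at h1
  simp [el] at h1

lemma eq_of_off {A B : MvPolynomial (Fin 3) ℂ}
    (h : ∀ x, el α β x ≠ 0 → eval x A = eval x B) : A = B := by
  have h1 : (A - B) * ell α β = 0 := by
    apply MvPolynomial.funext
    intro x
    rw [map_mul, map_sub, eval_ell, map_zero]
    by_cases hx : el α β x = 0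
    · rw [hx, mul_zero]
    · rw [h x hx, sub_self, zero_mul]
  exact sub_eq_zero.1 ((mul_eq_zero.1 h1).resolve_right ell_ne_zero)

/-- affine coordinates off the line -/
noncomputable def af (α β : ℂ) (x : Fin 3 → ℂ) : Fin 2 → ℂ := ![x 1 / el α β x, x 2 / el α β x]

/-- the point with given affine coordinates -/
def lf (α β : ℂ) (z : Fin 2 → ℂ) : Fin 3 → ℂ := ![1 - α * z 0 - β * z 1, z 0, z 1]

/-- dehomogenisation -/
noncomputable def dh (α β : ℂ) : MvPolynomial (Fin 3) ℂ →ₐ[ℂ] MvPolynomial (Fin 2) ℂ :=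
  aeval ![1 - C α * X 0 - C β * X 1, X 0, X 1]

lemma eval_dh (z : Fin 2 → ℂ) (f : MvPolynomial (Fin 3) ℂ) :
    eval z (dh α β f) = eval (lf α β z) f := by
  rw [dh, eval_aeval_comp]
  have h : (fun i => eval z ((![1 - C α * X 0 - C β * X 1, X 0, X 1] :
      Fin 3 → MvPolynomial (Fin 2) ℂ) i)) = lf α β z := by
    funext i
    fin_cases i <;> simp [lf]
  rw [h]

lemma lf_af {x : Fin 3 → ℂ} (hx : el α β x ≠ 0) : el α β x • lf α β (af α β x) = x := by
  funext i
  fin_cases i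
  · simp only [lf, af, Pi.smul_apply, smul_eq_mul, Fin.zero_eta, Matrix.cons_val_zero,
      Matrix.cons_val_one]
    field_simp
    simp only [el]
    ring
  · simp only [lf, af, Pi.smul_apply, smul_eq_mul, Fin.mk_one, Matrix.cons_val_zero,
      Matrix.cons_val_one]
    field_simp
  · show el α β x * (x 2 / el α β x) = x 2
    field_simp

lemma el_lf (z : Fin 2 → ℂ) : el α β (lf α β z) = 1 := by
  simp only [el, lf, Matrix.cons_val_zero, Matrix.cons_val_one, Matrix.cons_val]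
  ring

lemma af_lf (z : Fin 2 → ℂ) : af α β (lf α β z) = z := by
  funext i
  fin_cases i <;> simp [af, el_lf] <;> simp [lf]

lemma eval_hom {F : MvPolynomial (Fin 3) ℂ} {d : ℕ} (hF : F.IsHomogeneous d) {x : Fin 3 → ℂ}
    (hx : el α β x ≠ 0) : eval x F = el α β x ^ d * eval (af α β x) (dh α β F) := by
  rw [eval_dh, ← eval_smul_homog hF, lf_af hx]

/-- homogenisation -/
noncomputable def hm (α β : ℂ) (d : ℕ) (f : MvPolynomial (Fin 2) ℂ) : MvPolynomial (Fin 3) ℂ :=
  ∑ m ∈ f.support, C (coeff m f) * (X 1 ^ m 0 * X 2 ^ m 1 * ell α β ^ (d - (m 0 + m 1)))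

lemma eval_hm {d : ℕ} {f : MvPolynomial (Fin 2) ℂ} (hf : f.totalDegree ≤ d) {x : Fin 3 → ℂ}
    (hx : el α β x ≠ 0) : eval x (hm α β d f) = el α β x ^ d * eval (af α β x) f := by
  rw [hm, map_sum, eval_eq', Finset.mul_sum]
  refine Finset.sum_congr rfl fun m hm => ?_
  have h1 := supp_le hf m hm
  rw [map_mul, map_mul, map_mul, map_pow, map_pow, map_pow, eval_C, eval_ell, eval_X, eval_X,
    Fin.prod_univ_two]
  obtain ⟨e, he⟩ : ∃ e, d = m 0 + m 1 + e := ⟨d - (m 0 + m 1), by omega⟩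
  have h2 : d - (m 0 + m 1) = e := by omega
  rw [h2, he, pow_add, pow_add]
  simp only [af, Matrix.cons_val_zero, Matrix.cons_val_one]
  rw [div_pow, div_pow]
  field_simp

lemma totalDegree_dh (f : MvPolynomial (Fin 3) ℂ) :
    (dh α β f).totalDegree ≤ f.totalDegree := by
  apply totalDegree_aeval_le
  intro i
  fin_cases i
  · show (1 - C α * X 0 - C β * X 1 : MvPolynomial (Fin 2) ℂ).totalDegree ≤ 1
    refine (totalDegree_sub _ _).trans (max_le ((totalDegree_sub _ _).trans (max_le ?_ ?_)) ?_)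
    · rw [totalDegree_one]
      exact Nat.zero_le _
    · refine (totalDegree_mul _ _).trans ?_
      rw [totalDegree_C, totalDegree_X]
    · refine (totalDegree_mul _ _).trans ?_
      rw [totalDegree_C, totalDegree_X]
  · show (X 0 : MvPolynomial (Fin 2) ℂ).totalDegree ≤ 1
    rw [totalDegree_X]
  · show (X 1 : MvPolynomial (Fin 2) ℂ).totalDegree ≤ 1
    rw [totalDegree_X]

lemma form_ne_zero {F G : MvPolynomial (Fin 3) ℂ} {b : ℕ} (hb : 1 ≤ b)
    (hG : G.IsHomogeneous b) (hrel : IsRelPrime F G) : F ≠ 0 := by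
  rintro rfl
  have h1 : IsUnit G := hrel (dvd_zero G) dvd_rfl
  have h2 : IsUnit (eval (0 : Fin 3 → ℂ) G) := h1.map _
  have h3 := eval_smul_homog hG 0 (0 : Fin 3 → ℂ)
  rw [zero_smul, zero_pow (by omega), zero_mul] at h3
  rw [h3] at h2
  exact not_isUnit_zero h2

lemma dh_ne_zero {F : MvPolynomial (Fin 3) ℂ} {a : ℕ} (hF : F.IsHomogeneous a) (h0 : F ≠ 0) :
    dh α β F ≠ 0 := by
  intro h
  apply h0
  apply eq_of_off (α := α) (β := β)
  intro x hx
  rw [eval_hom hF hx, h, map_zero, mul_zero, map_zero]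

/-- a divisor of the dehomogenisation gives a divisor of the form -/
lemma hm_dvd {F : MvPolynomial (Fin 3) ℂ} {a : ℕ} (hF : F.IsHomogeneous a) (h0 : F ≠ 0)
    {c : MvPolynomial (Fin 2) ℂ} (hc : c ∣ dh α β F) : hm α β c.totalDegree c ∣ F := by
  obtain ⟨f1, hf1⟩ := hc
  have hne := dh_ne_zero (α := α) (β := β) hF h0
  have hc0 : c ≠ 0 := by
    rintro rfl
    exact hne (by rw [hf1, zero_mul])
  have hf10 : f1 ≠ 0 := by
    rintro rfl
    exact hne (by rw [hf1, mul_zero])
  have h1 := (totalDegree_dh (α := α) (β := β) F).trans hF.totalDegree_le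
  rw [hf1, totalDegree_mul_of_isDomain hc0 hf10] at h1
  refine ⟨hm α β (a - c.totalDegree) f1, ?_⟩
  apply eq_of_off (α := α) (β := β)
  intro x hx
  rw [eval_hom hF hx, map_mul, eval_hm le_rfl hx, eval_hm (by omega) hx, hf1, map_mul]
  obtain ⟨e, he⟩ : ∃ e, a = c.totalDegree + e := ⟨a - c.totalDegree, by omega⟩
  have h2 : a - c.totalDegree = e := by omega
  rw [h2, he, pow_add]
  ring

lemma dh_relPrime {F G : MvPolynomial (Fin 3) ℂ} {a b : ℕ} (hF : F.IsHomogeneous a)
    (hG : G.IsHomogeneous b) (hF0 : F ≠ 0) (hG0 : G ≠ 0) (hrel : IsRelPrime F G) :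
    IsRelPrime (dh α β F) (dh α β G) := by
  intro c hcF hcG
  have h1 : IsUnit (hm α β c.totalDegree c) := hrel (hm_dvd hF hF0 hcF) (hm_dvd hG hG0 hcG)
  obtain ⟨r, hr, h2⟩ := (MvPolynomial.isUnit_iff_eq_C_of_isReduced).1 h1
  have h3 : c = C r := by
    apply MvPolynomial.funext
    intro z
    have h4 := eval_hm (α := α) (β := β) (f := c) le_rfl (x := lf α β z)
      (by rw [el_lf]; exact one_ne_zero)
    rw [h2, el_lf, af_lf, one_pow, one_mul, eval_C] at h4
    rw [← h4, eval_C]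
  rw [h3]
  exact hr.map _

/-- AF + BG, off a line -/
theorem noether_off {F G : MvPolynomial (Fin 3) ℂ} {a b : ℕ} (ha : 1 ≤ a) (hb : 1 ≤ b)
    (hF : F.IsHomogeneous a) (hG : G.IsHomogeneous b) (hrel : IsRelPrime F G)
    (W : Finset (Fin 3 → ℂ)) (hell : ∀ w ∈ W, el α β w ≠ 0)
    (hinj : Set.InjOn (af α β) W) (hcard : a * b ≤ W.card) (hWF : ∀ w ∈ W, eval w F = 0)
    (hWG : ∀ w ∈ W, eval w G = 0) {g : MvPolynomial (Fin 3) ℂ} {d : ℕ} (hg : g.IsHomogeneous d)
    (hgW : ∀ w ∈ W, eval w g = 0) :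
    ∃ U V, g = U * F + V * G ∧ (U = 0 ∨ a ≤ d) ∧ (V = 0 ∨ b ≤ d) := by
  classical
  have hF0 : F ≠ 0 := form_ne_zero hb hG hrel
  have hG0 : G ≠ 0 := form_ne_zero ha hF hrel.symm
  have hf0 := dh_ne_zero (α := α) (β := β) hF hF0
  have hh0 := dh_ne_zero (α := α) (β := β) hG hG0
  have hrel' := dh_relPrime (α := α) (β := β) hF hG hF0 hG0 hrel
  have hS : ∀ {P : MvPolynomial (Fin 3) ℂ} {e : ℕ}, P.IsHomogeneous e →
      (∀ w ∈ W, eval w P = 0) → ∀ z ∈ W.image (af α β), eval z (dh α β P) = 0 := by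
    intro P e hP hPW z hz
    obtain ⟨w, hw, rfl⟩ := Finset.mem_image.1 hz
    have h1 := hPW w hw
    rw [eval_hom hP (hell w hw)] at h1
    exact (mul_eq_zero.1 h1).resolve_left (pow_ne_zero _ (hell w hw))
  have hcS : (W.image (af α β)).card = W.card := Finset.card_image_of_injOn hinj
  have hdf := (totalDegree_dh (α := α) (β := β) F).trans hF.totalDegree_le
  have hdh := (totalDegree_dh (α := α) (β := β) G).trans hG.totalDegree_le
  have hbz := bezout (dh α β F) (dh α β G) hf0 hh0 hrel' (W.image (af α β)) (hS hF hWF)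
    (hS hG hWG)
  rw [hcS] at hbz
  have hda : (dh α β F).totalDegree = a := by
    by_contra hne
    have h1 : (dh α β F).totalDegree + 1 ≤ a := by omega
    have h2 : ((dh α β F).totalDegree + 1) * b ≤ a * b := Nat.mul_le_mul_right _ h1
    have h3 : (dh α β F).totalDegree * (dh α β G).totalDegree ≤ (dh α β F).totalDegree * b :=
      Nat.mul_le_mul_left _ hdh
    rw [add_mul, one_mul] at h2
    omega
  have hdb : (dh α β G).totalDegree = b := by
    by_contra hne
    have h1 : (dh α β G).totalDegree + 1 ≤ b := by omega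
    have h2 : a * ((dh α β G).totalDegree + 1) ≤ a * b := Nat.mul_le_mul_left _ h1
    have h3 : (dh α β F).totalDegree * (dh α β G).totalDegree ≤ a * (dh α β G).totalDegree :=
      Nat.mul_le_mul_right _ hdf
    rw [mul_add, mul_one] at h2
    omega
  obtain ⟨u, v, huv, hu, hv⟩ := ci_rep (dh α β F) (dh α β G) hf0 hh0 hrel' (W.image (af α β))
    (hS hF hWF) (hS hG hWG) (by rw [hda, hdb, hcS]; exact hcard) (dh α β g) (hS hg hgW) d
    ((totalDegree_dh (α := α) (β := β) g).trans hg.totalDegree_le)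
  have lift : ∀ {P : MvPolynomial (Fin 3) ℂ} {e : ℕ}, P.IsHomogeneous e → dh α β P ≠ 0 →
      (dh α β P).totalDegree = e → ∀ w : MvPolynomial (Fin 2) ℂ,
      (w * dh α β P).totalDegree ≤ d → ∃ U, (U = 0 ∨ e ≤ d) ∧
        ∀ x, el α β x ≠ 0 → eval x (U * P) = el α β x ^ d * eval (af α β x) (w * dh α β P) := by
    intro P e hP hP0 hPe w hw
    by_cases hw0 : w = 0
    · refine ⟨0, Or.inl rfl, fun x _ => ?_⟩
      rw [hw0, zero_mul, zero_mul, map_zero, map_zero, mul_zero]
    · rw [totalDegree_mul_of_isDomain hw0 hP0, hPe] at hw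
      refine ⟨hm α β (d - e) w, Or.inr (by omega), fun x hx => ?_⟩
      rw [map_mul, eval_hm (by omega) hx, eval_hom hP hx, map_mul]
      obtain ⟨e', he⟩ : ∃ e', d = e + e' := ⟨d - e, by omega⟩
      have h2 : d - e = e' := by omega
      rw [h2, he, pow_add]
      ring
  obtain ⟨U, hU, hU'⟩ := lift hF hf0 hda u hu
  obtain ⟨V, hV, hV'⟩ := lift hG hh0 hdb v hv
  refine ⟨U, V, ?_, hU, hV⟩
  apply eq_of_off (α := α) (β := β)
  intro x hx
  rw [map_add, hU' x hx, hV' x hx, ← mul_add, ← map_add, ← huv, eval_hom hg hx]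

lemma exists_ell (W : Finset (Fin 3 → ℂ)) (h0 : ∀ w ∈ W, w ≠ 0) :
    ∃ α β : ℂ, ∀ w ∈ W, el α β w ≠ 0 := by
  classical
  obtain ⟨t, ht⟩ := exists_eval_ne_zero (τ := Fin 2)
    (g := ∏ w ∈ W, (C (w 0) + C (w 1) * X 0 + C (w 2) * X 1)) (by
      rw [Finset.prod_ne_zero_iff]
      intro w hw h
      apply h0 w hw
      have e0 := congrArg (eval ![0, 0]) h
      have e1 := congrArg (eval ![1, 0]) h
      have e2 := congrArg (eval ![0, 1]) h
      simp at e0 e1 e2
      funext i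
      fin_cases i
      · exact e0
      · show w 1 = 0
        linear_combination e1 - e0
      · show w 2 = 0
        linear_combination e2 - e0)
  rw [map_prod, Finset.prod_ne_zero_iff] at ht
  refine ⟨t 0, t 1, fun w hw => ?_⟩
  have h1 := ht w hw
  simp only [map_add, map_mul, eval_C, eval_X] at h1
  intro h
  apply h1
  rw [← h, el]
  ring

/-- AF + BG: the forms `F`, `G` of degrees `a`, `b` without a common factor have the `a b` different
zeros `w ∈ W`; each form which vanishes at these points is `U F + V G`. -/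
theorem noether {F G : MvPolynomial (Fin 3) ℂ} {a b : ℕ} (ha : 1 ≤ a) (hb : 1 ≤ b)
    (hF : F.IsHomogeneous a) (hG : G.IsHomogeneous b) (hrel : IsRelPrime F G)
    (W : Finset (Fin 3 → ℂ)) (h0 : ∀ w ∈ W, w ≠ 0)
    (hprop : ∀ w ∈ W, ∀ w' ∈ W, ∀ c : ℂ, w = c • w' → w = w')
    (hcard : a * b ≤ W.card) (hWF : ∀ w ∈ W, eval w F = 0)
    (hWG : ∀ w ∈ W, eval w G = 0) {g : MvPolynomial (Fin 3) ℂ} {d : ℕ} (hg : g.IsHomogeneous d)
    (hgW : ∀ w ∈ W, eval w g = 0) :
    ∃ U V, g = U * F + V * G ∧ (U = 0 ∨ a ≤ d) ∧ (V = 0 ∨ b ≤ d) := by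
  obtain ⟨α, β, hell⟩ := exists_ell W h0
  refine noether_off (α := α) (β := β) ha hb hF hG hrel W hell ?_ hcard hWF hWG hg hgW
  intro w hw w' hw' h
  refine hprop w hw w' hw' (el α β w / el α β w') ?_
  have e1 := lf_af (hell w hw)
  have e2 := lf_af (hell w' hw')
  rw [h] at e1
  calc w = el α β w • lf α β (af α β w') := e1.symm
    _ = (el α β w / el α β w') • (el α β w' • lf α β (af α β w')) := by
        rw [smul_smul, div_mul_cancel₀ _ (hell w' hw')]
    _ = (el α β w / el α β w') • w' := by rw [e2]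

/-- The homogeneous ideal of the points is generated by `F` and `G`. -/
theorem noether_ideal {F G : MvPolynomial (Fin 3) ℂ} {a b : ℕ} (ha : 1 ≤ a) (hb : 1 ≤ b)
    (hF : F.IsHomogeneous a) (hG : G.IsHomogeneous b) (hrel : IsRelPrime F G)
    (W : Finset (Fin 3 → ℂ)) (h0 : ∀ w ∈ W, w ≠ 0)
    (hprop : ∀ w ∈ W, ∀ w' ∈ W, ∀ c : ℂ, w = c • w' → w = w')
    (hcard : a * b ≤ W.card) (hWF : ∀ w ∈ W, eval w F = 0)
    (hWG : ∀ w ∈ W, eval w G = 0) {g : MvPolynomial (Fin 3) ℂ}
    (hgW : ∀ w ∈ W, ∀ t : ℂ, eval (t • w) g = 0) : g ∈ Ideal.span {F, G} := by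
  apply mem_of_components
  intro n
  obtain ⟨U, V, h, -, -⟩ := noether ha hb hF hG hrel W h0 hprop hcard hWF hWG
    (homogeneousComponent_isHomogeneous n g) (fun w hw => eval_hc_zero g w (hgW w hw) n)
  exact Ideal.mem_span_pair.2 ⟨U, V, h.symm⟩

end Pool.Agent.GeprociIns
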